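import Pool.Agent.DFM.Stmts

/-!
# Squad DFM, row ORD: the order of the lattice `L(I,J,w)`
-/

set_option autoImplicit false

namespace Pool.Agent.DFM.H60

/-- **Row ORD** -/
theorem ord : OrdStmt := by
  intro I J
  refine ⟨?_, ?_, ?_⟩
  · intro x
    cases x with
    | low G => exact Finset.Subset.refl G
    | mid => trivial
    | top F => exact Finset.Subset.refl F
    | ch i j n => exact ⟨rfl, rfl, le_refl n⟩
  · intro x y z hxy hyz
    cases x with
    | low G =>
      cases y with
      | low G' =>
        cases z with
        | low G'' => exact Finset.Subset.trans hyz hxy
        | mid => trivial
        | top F => trivial
        | ch i j n => exact hxy hyz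
      | mid =>
        cases z with
        | low G'' => exact hyz.elim
        | mid => trivial
        | top F => trivial
        | ch i j n => exact hyz.elim
      | top F' =>
        cases z with
        | low G'' => exact hyz.elim
        | mid => exact hyz.elim
        | top F => trivial
        | ch i j n => exact hyz.elim
      | ch i' j' n' =>
        cases z with
        | low G'' => exact hyz.elim
        | mid => exact hyz.elim
        | top F => trivial
        | ch i j n =>
          obtain ⟨h1, -, -⟩ := hyz
          subst h1
          exact hxy
    | mid =>
      cases y with
      | low G' => exact hxy.elim
      | mid =>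
        cases z with
        | low G'' => exact hyz.elim
        | mid => trivial
        | top F => trivial
        | ch i j n => exact hyz.elim
      | top F' =>
        cases z with
        | low G'' => exact hyz.elim
        | mid => exact hyz.elim
        | top F => trivial
        | ch i j n => exact hyz.elim
      | ch i' j' n' => exact hxy.elim
    | top F =>
      cases y with
      | low G' => exact hxy.elim
      | mid => exact hxy.elim
      | top F' =>
        cases z with
        | low G'' => exact hyz.elim
        | mid => exact hyz.elim
        | top F'' => exact Finset.Subset.trans hxy hyz
        | ch i j n => exact hyz.elim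
      | ch i' j' n' => exact hxy.elim
    | ch i j n =>
      cases y with
      | low G' => exact hxy.elim
      | mid => exact hxy.elim
      | top F' =>
        cases z with
        | low G'' => exact hyz.elim
        | mid => exact hyz.elim
        | top F'' => exact hyz hxy
        | ch i' j' n' => exact hyz.elim
      | ch i' j' n' =>
        cases z with
        | low G'' => exact hyz.elim
        | mid => exact hyz.elim
        | top F'' =>
          obtain ⟨-, h2, -⟩ := hxy
          subst h2
          exact hyz
        | ch i'' j'' n'' =>
          obtain ⟨h1, h2, h3⟩ := hxy
          obtain ⟨h4, h5, h6⟩ := hyz
          exact ⟨h1.trans h4, h2.trans h5, h3.trans h6⟩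
  · intro x y hxy hyx
    cases x with
    | low G =>
      cases y with
      | low G' => exact congrArg El.low (Finset.Subset.antisymm hyx hxy)
      | mid => exact hyx.elim
      | top F' => exact hyx.elim
      | ch i' j' n' => exact hyx.elim
    | mid =>
      cases y with
      | low G' => exact hxy.elim
      | mid => rfl
      | top F' => exact hyx.elim
      | ch i' j' n' => exact hxy.elim
    | top F =>
      cases y with
      | low G' => exact hxy.elim
      | mid => exact hxy.elim
      | top F' => exact congrArg El.top (Finset.Subset.antisymm hxy hyx)
      | ch i' j' n' => exact hxy.elim
    | ch i j n =>
      cases y with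
      | low G' => exact hxy.elim
      | mid => exact hxy.elim
      | top F' => exact hyx.elim
      | ch i' j' n' =>
        obtain ⟨h1, h2, h3⟩ := hxy
        obtain ⟨-, -, h6⟩ := hyx
        subst h1
        subst h2
        rw [le_antisymm h3 h6]

end Pool.Agent.DFM.H60
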